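import Pool.Agent.Helper6.O3.St

/-!
# Project O3 (MP_d49380_lc), module RT: the limit of the ratios
-/

set_option autoImplicit false

namespace Pool.Agent.Helper15.O3

open Pool.Agent.Helper6.O3 Filter Topology
open Pool.Agent.Helper99.DF (T TL sq chk Cert ver StVER StTRA StCMP StSND StPR1 StPRC StVP)

/-- Module RT. -/
theorem hRT : StRT := by
  intro x P Q R k0 N hx hlc hrec hR
  set ρ : ℕ → ℝ := fun k => x (k + 1) / x k with hρ
  have hpos : ∀ k, k0 ≤ k → 0 < ρ k := fun k hk => div_pos (hx _ (by omega)) (hx _ hk)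
  have hstep : ∀ k, k0 ≤ k → ρ (k + 1) ≤ ρ k := by
    intro k hk
    simp only [hρ]
    rw [div_le_div_iff₀ (hx _ (by omega)) (hx _ hk)]
    have := hlc k hk
    nlinarith
  have hanti : Antitone (fun n => ρ (n + k0)) := by
    apply antitone_nat_of_succ_le
    intro n
    have := hstep (n + k0) (by omega)
    rwa [show n + k0 + 1 = n + 1 + k0 by omega] at this
  have hbdd : BddBelow (Set.range (fun n => ρ (n + k0))) := by
    refine ⟨0, ?_⟩
    rintro _ ⟨n, rfl⟩
    exact (hpos _ (by omega)).le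
  have hlim0 := tendsto_atTop_ciInf hanti hbdd
  set l : ℝ := ⨅ n, ρ (n + k0) with hl
  have hlim : Tendsto ρ atTop (𝓝 l) := (tendsto_add_atTop_iff_nat k0).mp hlim0
  have hle : ∀ k, k0 ≤ k → l ≤ ρ k := by
    intro k hk
    have h := ciInf_le hbdd (k - k0)
    simp only [show k - k0 + k0 = k by omega] at h
    exact h
  have hl0 : 0 ≤ l := le_ciInf fun n => (hpos _ (by omega)).le
  have hev : ∀ m, max N k0 ≤ m →
      ρ (m + 2) * ρ (m + 1) * ρ m = P * (ρ (m + 1) * ρ m) + Q * ρ m + R := by
    intro m hm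
    have hN : N ≤ m := le_trans (le_max_left _ _) hm
    have hk : k0 ≤ m := le_trans (le_max_right _ _) hm
    have h := hrec m hN
    simp only [ka] at h
    have h0 := (hx m hk).ne'
    have h1 := (hx (m + 1) (by omega)).ne'
    have h2 := (hx (m + 2) (by omega)).ne'
    simp only [hρ]
    rw [show m + 2 + 1 = m + 3 by omega, show m + 1 + 1 = m + 2 by omega]
    field_simp
    linear_combination h
  have t1 : Tendsto (fun m => ρ (m + 1)) atTop (𝓝 l) := (tendsto_add_atTop_iff_nat 1).mpr hlim
  have t2 : Tendsto (fun m => ρ (m + 2)) atTop (𝓝 l) := (tendsto_add_atTop_iff_nat 2).mpr hlim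
  have tL : Tendsto (fun m => ρ (m + 2) * ρ (m + 1) * ρ m) atTop (𝓝 (l * l * l)) :=
    (t2.mul t1).mul hlim
  have tR : Tendsto (fun m => P * (ρ (m + 1) * ρ m) + Q * ρ m + R) atTop
      (𝓝 (P * (l * l) + Q * l + R)) :=
    (((t1.mul hlim).const_mul P).add (hlim.const_mul Q)).add_const R
  have heq : l * l * l = P * (l * l) + Q * l + R := by
    apply tendsto_nhds_unique tL
    apply tR.congr'
    filter_upwards [eventually_ge_atTop (max N k0)] with m hm
    exact (hev m hm).symm
  have hl1 : l ≠ 0 := by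
    intro h
    rw [h] at heq
    apply hR
    linarith
  refine ⟨l, lt_of_le_of_ne hl0 (Ne.symm hl1), hlim, ?_, by linarith [heq]⟩
  intro k hk
  have h := hle k hk
  simp only [hρ] at h
  rwa [le_div_iff₀ (hx k hk)] at h

end Pool.Agent.Helper15.O3
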